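import Pool.Agent.MP_0b7570_co.Mg.Bridge

/-- Every cycle-conformal brace is a complete bipartite graph `K_{t,t}` with `t ≥ 2`.
The first five hypotheses say that `G` is a brace (bipartite, at least four vertices, 2-connected,
every matching with at most two edges extends to a perfect matching); the last two say that `G` is
cycle-conformal. -/
theorem Pool.Agent.Results.MP_0b7570_co.Complete.result :
    ∀ (V : Type) [Fintype V] (G : SimpleGraph V),
      G.IsBipartite → 4 ≤ Fintype.card V →
      G.Connected → (∀ v : V, (G.induce {w | w ≠ v}).Connected) →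
      (∀ M : G.Subgraph, M.IsMatching → M.edgeSet.ncard ≤ 2 →
        ∃ N : G.Subgraph, N.IsPerfectMatching ∧ M ≤ N) →
      (∃ M : G.Subgraph, M.IsPerfectMatching) →
      (∀ (v : V) (c : G.Walk v v), c.IsCycle → Even c.length →
        ∃ M : (G.induce {w | w ∉ c.support}).Subgraph, M.IsPerfectMatching) →
      ∃ t : ℕ, 2 ≤ t ∧ Nonempty (G ≃g completeBipartiteGraph (Fin t) (Fin t)) := by
  intro V _ G hbip hcard _ h2 hext hpm hconf
  classical
  exact Pool.Agent.MP_0b7570_co.main hbip hcard h2 hext hpm hconf
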